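import Pool.Agent.Q84.CC.Small2

/-!
A solution with a small Morrey norm of the vorticity stays bounded.
-/

set_option autoImplicit false

open MeasureTheory Set Metric Filter Topology
open scoped ENNReal ContDiff
open H459R3.NS Pool.Agent.W268.NS Pool.Agent.Q67.VD

namespace Pool.Agent.Q84.CC

/-- The gradient is bounded on closed time intervals. -/
lemma grad_bdd {ν T : ℝ} {u : ℝ → V → V} {p : ℝ → V → ℝ} (h : IsSol ν T u p) {T₁ : ℝ}
    (hT : T₁ < T) : ∃ M : ℝ, 0 ≤ M ∧ ∀ t ∈ Icc 0 T₁, ∀ x ∈ cube, ∀ i j,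
      |pd j (fun y => u t y i) x| ≤ M := by
  have h1 : ∀ i j : Fin 3, ∃ M : ℝ, ∀ z ∈ Icc 0 T₁ ×ˢ cube,
      ‖pd j (fun y => u z.1 y i) z.2‖ ≤ M := by
    intro i j
    have hc : ContinuousOn (fun z : ℝ × V => pd j (fun y => u z.1 y i) z.2)
        (Ico 0 T ×ˢ univ) :=
      (contDiffOn_pd (f := fun t y => u t y i) (h.smooth_c i) j).continuousOn
    refine (isCompact_Icc.prod (isCompact_Icc : IsCompact cube)).exists_bound_of_continuousOn
      (hc.mono ?_)
    exact prod_mono (fun s hs => ⟨hs.1, hs.2.trans_lt hT⟩) (subset_univ _)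
  choose M hM using h1
  refine ⟨∑ i, ∑ j, |M i j|, Finset.sum_nonneg fun _ _ => Finset.sum_nonneg fun _ _ =>
    abs_nonneg _, fun t ht x hx i j => ?_⟩
  have h2 : |pd j (fun y => u t y i) x| ≤ |M i j| :=
    (hM i j (t, x) ⟨ht, hx⟩).trans (le_abs_self _)
  refine h2.trans ?_
  refine (Finset.single_le_sum (f := fun j => |M i j|) (fun _ _ => abs_nonneg _)
    (Finset.mem_univ j)).trans ?_
  exact Finset.single_le_sum (f := fun i => ∑ j, |M i j|)
    (fun _ _ => Finset.sum_nonneg fun _ _ => abs_nonneg _) (Finset.mem_univ i)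

lemma cub_le {v : Fin 3 → V → ℝ} (hv : ∀ i, SP (v i)) {M : ℝ}
    (hM : ∀ x ∈ cube, ∀ i j, |pd j (v i) x| ≤ M) :
    -cub v ≤ 27 * (M * ∑ i, ∑ j, ∫ x in cube, pd j (v i) x ^ 2) := by
  have hM0 : 0 ≤ M := (abs_nonneg _).trans (hM 0 ⟨le_rfl, zero_le_one⟩ 0 0)
  set Y := ∑ i, ∑ j, ∫ x in cube, pd j (v i) x ^ 2 with hY
  have hy : ∀ i j, ∫ x in cube, pd j (v i) x ^ 2 ≤ Y := by
    intro i j
    refine le_trans ?_ (Finset.single_le_sum (f := fun i => ∑ j, ∫ x in cube, pd j (v i) x ^ 2)
      (fun _ _ => Finset.sum_nonneg fun _ _ => integral_nonneg fun _ => sq_nonneg _)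
      (Finset.mem_univ i))
    exact Finset.single_le_sum (f := fun j => ∫ x in cube, pd j (v i) x ^ 2)
      (fun _ _ => integral_nonneg fun _ => sq_nonneg _) (Finset.mem_univ j)
  have h1 : ∀ i j m, -(∫ x in cube, pd m (v i) x * (pd i (v j) x * pd m (v j) x)) ≤ M * Y := by
    intro i j m
    rw [← integral_neg]
    have c1 := ((hv j).pd i).cont
    have c2 := ((hv j).pd m).cont
    calc ∫ x in cube, -(pd m (v i) x * (pd i (v j) x * pd m (v j) x))
        ≤ ∫ x in cube, (M / 2 * pd i (v j) x ^ 2 + M / 2 * pd m (v j) x ^ 2) := by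
          refine setIntegral_mono_on (ic (((hv i).pd m).mul (((hv j).pd i).mul
            ((hv j).pd m))).cont.neg) (ic ((continuous_const.mul (c1.pow 2)).add
            (continuous_const.mul (c2.pow 2)))) measurableSet_Icc fun x hx => ?_
          have a1 := hM x hx i m
          have a2 : -(pd m (v i) x * (pd i (v j) x * pd m (v j) x))
              ≤ |pd m (v i) x| * (|pd i (v j) x| * |pd m (v j) x|) := by
            rw [← abs_mul, ← abs_mul]
            exact neg_le_abs _
          have a3 : |pd m (v i) x| * (|pd i (v j) x| * |pd m (v j) x|)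
              ≤ M * (|pd i (v j) x| * |pd m (v j) x|) :=
            mul_le_mul_of_nonneg_right a1 (by positivity)
          have a4 : |pd i (v j) x| * |pd m (v j) x|
              ≤ (pd i (v j) x ^ 2 + pd m (v j) x ^ 2) / 2 := by
            have := sq_nonneg (|pd i (v j) x| - |pd m (v j) x|)
            have b1 := sq_abs (pd i (v j) x)
            have b2 := sq_abs (pd m (v j) x)
            nlinarith
          have a5 := mul_le_mul_of_nonneg_left a4 hM0
          linarith
      _ = M / 2 * (∫ x in cube, pd i (v j) x ^ 2) + M / 2 * ∫ x in cube, pd m (v j) x ^ 2 := by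
          rw [int_add2 (f := fun x => M / 2 * pd i (v j) x ^ 2)
            (g := fun x => M / 2 * pd m (v j) x ^ 2) (continuous_const.mul (c1.pow 2)) (continuous_const.mul (c2.pow 2)),
            integral_const_mul, integral_const_mul]
      _ ≤ M / 2 * Y + M / 2 * Y := by
          have hM2 : 0 ≤ M / 2 := by positivity
          exact add_le_add (mul_le_mul_of_nonneg_left (hy j i) hM2)
            (mul_le_mul_of_nonneg_left (hy j m) hM2)
      _ = M * Y := by ring
  have h2 : -cub v = ∑ i, ∑ j, ∑ m,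
      -(∫ x in cube, pd m (v i) x * (pd i (v j) x * pd m (v j) x)) := by
    unfold cub
    simp_rw [Finset.sum_neg_distrib]
  rw [h2]
  calc ∑ i, ∑ j, ∑ m, -(∫ x in cube, pd m (v i) x * (pd i (v j) x * pd m (v j) x))
      ≤ ∑ _i : Fin 3, ∑ _j : Fin 3, ∑ _m : Fin 3, M * Y :=
        Finset.sum_le_sum fun i _ => Finset.sum_le_sum fun j _ => Finset.sum_le_sum fun m _ =>
          h1 i j m
    _ = 27 * (M * Y) := by
        simp
        ring

/-- A solution with a small Morrey norm of the vorticity stays bounded. -/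
theorem small : Pool.Agent.Q85.CC.StmSmall := by
  obtain ⟨C, hC, h⟩ := production
  refine ⟨min 1 (1 / (2 * C)), by positivity, fun T u p hT hsol T₀ ρ hT₀ hT₀T hρ hM => ?_⟩
  set c := min 1 (1 / (2 * C)) with hc
  have hc0 : 0 < c := by positivity
  have hc1 : c ≤ 1 := min_le_left _ _
  have hcC : 2 * (C * c) ≤ 1 := by
    have : c ≤ 1 / (2 * C) := min_le_right _ _
    rw [le_div_iff₀ (by positivity)] at this
    linarith
  set r := min ρ (1 / 2) with hr
  have hr0 : 0 < r := by positivity
  obtain ⟨M, hM0, hMb⟩ := grad_bdd hsol hT₀T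
  set E := energy (u 0) with hE
  have hE0 : 0 ≤ E := H459R3.NS.energy_nonneg _
  set G : ℝ := 54 * M + 2 * (C / c * (1 / r ^ 2 + E / r ^ 3)) with hG
  have hG1 : 0 ≤ C / c * (1 / r ^ 2 + E / r ^ 3) := by positivity
  have hG0 : 0 ≤ G := by positivity
  have key := hsol.gron (ν := 1) one_pos (g := fun _ => G) (B := G * T) (δ := 1) one_pos
    (fun s _ => hG0) (fun t _ => continuous_const.continuousOn.integrableOn_Icc)
    (fun t ht => by
      rw [intervalIntegral.integral_const, smul_eq_mul, sub_zero, mul_comm]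
      exact mul_le_mul_of_nonneg_left ht.2.le hG0) (fun s hs => ?_)
  · obtain ⟨-, B, hB⟩ := key
    refine ⟨max B 0, fun t ht x => ?_⟩
    rw [pi_norm_le_iff_of_nonneg (le_max_right _ _)]
    exact fun i => (hB t ht x i).trans (le_max_left _ _)
  · have hs' : s ∈ Ico 0 T := ⟨hs.1.le, hs.2⟩
    have hv : ∀ i, SP (fun y => u s y i) := fun i => hsol.sp hs' i
    have hdiv := hsol.divfree s hs'
    have hP := palin_nonneg (u s)
    have hY := enstrophy_nonneg (u s)
    rcases le_or_gt s T₀ with hle | hlt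
    · have h1 := cub_le hv (M := M) (fun x hx i j => hMb s ⟨hs.1.le, hle⟩ x hx i j)
      have h2 : (∑ i, ∑ j, ∫ x in cube, pd j (fun y => u s y i) x ^ 2) = enstrophy (u s) := rfl
      rw [h2] at h1
      have h3 : 0 ≤ 2 * (C / c * (1 / r ^ 2 + E / r ^ 3)) * enstrophy (u s) := by positivity
      have h4 : G * enstrophy (u s) = 54 * M * enstrophy (u s)
          + 2 * (C / c * (1 / r ^ 2 + E / r ^ 3)) * enstrophy (u s) := by
        rw [hG]; ring
      show -(2 * cub (fun i y => u s y i)) ≤ (2 - 1) * (1 * palin (u s)) + G * enstrophy (u s)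
      rw [h4]
      linarith
    · have hm : Mor c r (om (u s)) := fun x q hq hqr =>
        hM s ⟨hlt, hs.2⟩ x q hq (hqr.trans (min_le_left _ _))
      have h1 := h (u s) c r hv hdiv hc0 hc1 hr0 (min_le_right _ _) hm
      rw [← cub_eq_stretch hv hdiv] at h1
      have h2 : energy (u s) ≤ E := hsol.energy_le one_pos hs'
      have h3 : C / c * (1 / r ^ 2 + energy (u s) / r ^ 3) * enstrophy (u s)
          ≤ C / c * (1 / r ^ 2 + E / r ^ 3) * enstrophy (u s) := by
        have : energy (u s) / r ^ 3 ≤ E / r ^ 3 :=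
          div_le_div_of_nonneg_right h2 (by positivity)
        refine mul_le_mul_of_nonneg_right (mul_le_mul_of_nonneg_left ?_ (by positivity)) hY
        linarith
      have h4 : 2 * (C * c * palin (u s)) ≤ palin (u s) := by
        nlinarith
      have h5 : 0 ≤ 54 * M * enstrophy (u s) := by positivity
      have h6 : G * enstrophy (u s) = 54 * M * enstrophy (u s)
          + 2 * (C / c * (1 / r ^ 2 + E / r ^ 3) * enstrophy (u s)) := by
        rw [hG]; ring
      show -(2 * cub (fun i y => u s y i)) ≤ (2 - 1) * (1 * palin (u s)) + G * enstrophy (u s)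
      rw [h6]
      linarith

end Pool.Agent.Q84.CC
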