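import Pool.Agent.Q85.CC.Defs
import Pool.Agent.Q225.VD.Gn
import Pool.Agent.Q225.VD.Tri
import Pool.Agent.Q153.VD.Pot
import Pool.Agent.Q199.VD.Flux
import Pool.Agent.Q67.VD.Basic
import Pool.Agent.H459R3.NS.Gron

/-!
Bounds for the velocity and for the production of enstrophy under a Morrey bound for the vorticity.
-/

set_option autoImplicit false

open MeasureTheory Set Metric Filter Topology
open scoped ENNReal ContDiff
open H459R3.NS Pool.Agent.W268.NS Pool.Agent.Q67.VD
open Pool.Agent.Q199.VD (om_nonneg om_sq om_cont abs_le_len div_vort ball_cs energy_comp)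

namespace Pool.Agent.Q84.CC

lemma int_le {f g : V → ℝ} (hf : Continuous f) (hg : Continuous g) (h : ∀ x, f x ≤ g x) :
    ∫ x in cube, f x ≤ ∫ x in cube, g x :=
  integral_mono (hf.continuousOn.integrableOn_compact isCompact_Icc)
    (hg.continuousOn.integrableOn_compact isCompact_Icc) h

lemma ic {f : V → ℝ} (hf : Continuous f) : IntegrableOn f cube :=
  hf.continuousOn.integrableOn_compact isCompact_Icc

lemma int_add2 {f g : V → ℝ} (hf : Continuous f) (hg : Continuous g) :
    ∫ x in cube, (f x + g x) = (∫ x in cube, f x) + ∫ x in cube, g x :=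
  integral_add (ic hf) (ic hg)

lemma int_fin {f : Fin 3 → V → ℝ} (hf : ∀ i, Continuous (f i)) :
    ∫ x in cube, ∑ i, f i x = ∑ i, ∫ x in cube, f i x :=
  integral_finsetSum _ fun i _ => ic (hf i)

lemma mor_of_le {K ρ : ℝ} {f g : V → ℝ} (hf : Continuous f) (hg : Continuous g)
    (h : ∀ x, |g x| ≤ |f x|) (hK : Mor K ρ f) : Mor K ρ g := by
  intro x r hr hρ
  refine le_trans ?_ (hK x r hr hρ)
  exact integral_mono (hg.abs.continuousOn.integrableOn_compact (isCompact_closedBall _ _))
    (hf.abs.continuousOn.integrableOn_compact (isCompact_closedBall _ _)) h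

lemma om_per {v : V → V} (hv : ∀ i, SP (fun y => v y i)) : Per (om v) := by
  intro i x
  have h : vort v (x + Pi.single i 1) = vort v x := by
    funext k
    exact (sp_vort hv k).per i x
  unfold om
  rw [h]

lemma entry_le (v : V → V) (x : V) (i k : Fin 3) :
    |gradM v x k i - gradM v x i k| ≤ om v x := by
  have h0 := abs_le_len (vort v x) 0
  have h1 := abs_le_len (vort v x) 1
  have h2 := abs_le_len (vort v x) 2
  have e0 : vort v x 0 = gradM v x 1 2 - gradM v x 2 1 := rfl
  have e1 : vort v x 1 = gradM v x 2 0 - gradM v x 0 2 := rfl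
  have e2 : vort v x 2 = gradM v x 0 1 - gradM v x 1 0 := rfl
  rw [e0] at h0
  rw [e1] at h1
  rw [e2] at h2
  have hz := om_nonneg v x
  fin_cases i <;> fin_cases k
  · simpa using hz
  · show |gradM v x 1 0 - gradM v x 0 1| ≤ om v x
    rw [abs_sub_comm]; exact h2
  · exact h1
  · exact h2
  · simpa using hz
  · show |gradM v x 2 1 - gradM v x 1 2| ≤ om v x
    rw [abs_sub_comm]; exact h0
  · show |gradM v x 0 2 - gradM v x 2 0| ≤ om v x
    rw [abs_sub_comm]; exact h1
  · exact h0
  · simpa using hz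

/-- The velocity is bounded by the truncated potential of the vorticity. -/
theorem vel : ∃ C : ℝ, 0 < C ∧ ∀ (v : V → V) (ρ : ℝ), (∀ i, SP (fun y => v y i)) →
    (∀ x, ∑ i, pd i (fun y => v y i) x = 0) → 0 < ρ → ρ ≤ 1 / 2 → ∀ x i,
      |v x i| ≤ C * (pot ρ (om v) x + √(energy v / ρ ^ 3)) := by
  obtain ⟨C, hC, h⟩ := Pool.Agent.Q153.VD.stmPot
  refine ⟨3 * C, by positivity, fun v ρ hv hdiv hρ hρ1 x i => ?_⟩
  have hG : ∀ k, SP (fun y => gradM v y k i - gradM v y i k) := fun k =>
    SP.sub' (sp_grad hv k i) (sp_grad hv i k)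
  have hlap : ∀ y, lap (fun y => v y i) y
      = ∑ k, pd k (fun y => gradM v y k i - gradM v y i k) y := by
    intro y
    have e : ∀ k, pd k (fun y => gradM v y k i - gradM v y i k) y
        = pd k (pd k (fun y => v y i)) y - pd i (pd k (fun y => v y k)) y := by
      intro k
      rw [Pool.Agent.Q199.VD.pd_sub' (sp_grad hv k i) (sp_grad hv i k)]
      have e2 : pd k (fun y => gradM v y i k) = pd i (pd k (fun y => v y k)) :=
        pd_comm (hv k) k i
      rw [e2]
      rfl
    simp_rw [e]
    rw [Finset.sum_sub_distrib]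
    have e3 : ∑ k, pd i (pd k (fun y => v y k)) y = 0 := by
      rw [← pd_sum (fun k _ => (hv k).pd k) i y]
      have : (fun y => ∑ k, pd k (fun y => v y k) y) = fun _ => 0 := funext hdiv
      rw [this]
      unfold pd
      simp
    rw [e3, sub_zero]
    rfl
  have h1 := h ρ (fun y => v y i) (fun k y => gradM v y k i - gradM v y i k) hρ (by linarith)
    (hv i) hG hlap x
  have h2 : ∀ k, pot ρ (fun y => gradM v y k i - gradM v y i k) x ≤ pot ρ (om v) x := by
    intro k
    have := pot_le (hG k).per (hG k).cont (om_per hv) (om_cont hv) (δ := 1) (M := 0) hρ.le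
      (x := x) (fun z _ => by
        rw [one_mul, add_zero, abs_of_nonneg (om_nonneg v _)]
        exact entry_le v _ i k)
    simpa using this
  have h3 : ∑ k, pot ρ (fun y => gradM v y k i - gradM v y i k) x ≤ 3 * pot ρ (om v) x := by
    rw [Fin.sum_univ_three]
    linarith [h2 0, h2 1, h2 2]
  have h4 : ∫ z in closedBall (0 : V) ρ, |v (x + z) i| ≤ √((2 * ρ) ^ 3 * energy v) := by
    have h5 : SP (fun z => v (x + z) i) := by
      refine ⟨(hv i).smooth.comp (contDiff_const.add contDiff_id), fun j z => ?_⟩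
      show v (x + (z + Pi.single j 1)) i = v (x + z) i
      rw [← add_assoc]
      exact (hv i).per j (x + z)
    have h6 : ∫ z in cube, v (x + z) i ^ 2 ≤ energy v := by
      have hp : Per (fun z => v z i ^ 2) := fun j z => by
        show v (z + Pi.single j 1) i ^ 2 = v z i ^ 2
        rw [show v (z + Pi.single j 1) i = v z i from (hv i).per j z]
      have := int_shift hp x
      simp_rw [add_comm x]
      rw [this]
      exact energy_comp v i
    have h7 := ball_cs h5 0 (R := 2 * ρ) (by positivity) (by linarith) h6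
    rwa [mul_div_cancel_left₀ _ (two_ne_zero)] at h7
  have h8 : √((2 * ρ) ^ 3 * energy v) / ρ ^ 3 ≤ 3 * √(energy v / ρ ^ 3) := by
    have e1 : √((2 * ρ) ^ 3 * energy v) / ρ ^ 3 = √(8 * (energy v / ρ ^ 3)) := by
      rw [show √((2 * ρ) ^ 3 * energy v) / ρ ^ 3 = √((2 * ρ) ^ 3 * energy v) / √((ρ ^ 3) ^ 2) by
        rw [Real.sqrt_sq (by positivity)], ← Real.sqrt_div' _ (by positivity)]
      congr 1
      field_simp
      ring
    rw [e1, Real.sqrt_mul (by norm_num)]
    have : √8 ≤ 3 := by
      rw [Real.sqrt_le_left (by norm_num)]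
      norm_num
    exact mul_le_mul_of_nonneg_right this (Real.sqrt_nonneg _)
  have h9 : (∫ z in closedBall (0 : V) ρ, |v (x + z) i|) / ρ ^ 3 ≤ 3 * √(energy v / ρ ^ 3) :=
    (div_le_div_of_nonneg_right h4 (by positivity)).trans h8
  refine h1.trans ?_
  calc C * ((∑ k, pot ρ (fun y => gradM v y k i - gradM v y i k) x)
        + (∫ z in closedBall (0 : V) ρ, |v (x + z) i|) / ρ ^ 3)
      ≤ C * (3 * pot ρ (om v) x + 3 * √(energy v / ρ ^ 3)) := by gcongr
    _ = _ := by ring

end Pool.Agent.Q84.CC
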