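import Pool.Agent.Q84.CC.Small1
import Pool.Agent.H459R3.NS.High

/-!
The production of enstrophy under a Morrey bound for the vorticity.
-/

set_option autoImplicit false

open MeasureTheory Set Metric Filter Topology
open scoped ENNReal ContDiff
open H459R3.NS Pool.Agent.W268.NS Pool.Agent.Q67.VD
open Pool.Agent.Q199.VD (om_nonneg om_sq om_cont abs_le_len div_vort ball_cs energy_comp)

namespace Pool.Agent.Q84.CC

variable {v : V → V} (hv : ∀ i, SP (fun y => v y i))

include hv in
/-- integration by parts in the production of enstrophy -/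
theorem stretch_ibp : ∫ x in cube, stretchRate v x
    = -∫ x in cube, ∑ i, ∑ j, v x j * (vort v x i * pd i (fun y => vort v y j) x) := by
  have hw := sp_vort hv
  have e1 : ∫ x in cube, stretchRate v x
      = ∑ i, ∑ j, ∫ x in cube, pd i (fun y => v y j) x * (vort v x i * vort v x j) := by
    have e : ∀ x, stretchRate v x
        = ∑ i, ∑ j, pd i (fun y => v y j) x * (vort v x i * vort v x j) := by
      intro x
      unfold stretchRate
      refine Finset.sum_congr rfl fun i _ => Finset.sum_congr rfl fun j _ => ?_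
      have : gradM v x i j = pd i (fun y => v y j) x := rfl
      rw [this]
      ring
    simp_rw [e]
    rw [integral_finsetSum _ fun i _ =>
      (SP.sum fun j _ => ((hv j).pd i).mul ((hw i).mul (hw j))).int]
    refine Finset.sum_congr rfl fun i _ => ?_
    rw [integral_finsetSum _ fun j _ => (((hv j).pd i).mul ((hw i).mul (hw j))).int]
  have e2 : ∀ i j, ∫ x in cube, pd i (fun y => v y j) x * (vort v x i * vort v x j)
      = -(∫ x in cube, v x j * (vort v x i * pd i (fun y => vort v y j) x))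
        - ∫ x in cube, v x j * (vort v x j * pd i (fun y => vort v y i) x) := by
    intro i j
    rw [ibp (hv j) ((hw i).mul (hw j)) i]
    have e3 : ∀ x, v x j * pd i (fun y => vort v y i * vort v y j) x
        = v x j * (vort v x i * pd i (fun y => vort v y j) x)
          + v x j * (vort v x j * pd i (fun y => vort v y i) x) := by
      intro x
      rw [pd_mul (hw i) (hw j)]
      ring
    simp_rw [e3]
    rw [int_add2 ((hv j).mul ((hw i).mul ((hw j).pd i))).cont
      ((hv j).mul ((hw j).mul ((hw i).pd i))).cont]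
    ring
  have e4 : ∑ i, ∑ j, ∫ x in cube, v x j * (vort v x j * pd i (fun y => vort v y i) x) = 0 := by
    rw [Finset.sum_comm]
    refine Finset.sum_eq_zero fun j _ => ?_
    rw [← int_fin (f := fun i x => v x j * (vort v x j * pd i (fun y => vort v y i) x))
      fun i => ((hv j).mul ((hw j).mul ((hw i).pd i))).cont]
    have : ∀ x, ∑ i, v x j * (vort v x j * pd i (fun y => vort v y i) x) = 0 := by
      intro x
      rw [← Finset.mul_sum, ← Finset.mul_sum, div_vort hv, mul_zero, mul_zero]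
    rw [integral_congr_ae (Eventually.of_forall this)]
    simp
  rw [e1]
  simp_rw [e2, Finset.sum_sub_distrib]
  rw [e4, sub_zero]
  simp_rw [Finset.sum_neg_distrib]
  congr 1
  rw [integral_finsetSum _ fun i _ =>
      (SP.sum fun j _ => (hv j).mul ((hw i).mul ((hw j).pd i))).int]
  refine Finset.sum_congr rfl fun i _ => ?_
  rw [integral_finsetSum _ fun j _ => ((hv j).mul ((hw i).mul ((hw j).pd i))).int]

include hv in
lemma dom_cont : Continuous (dom v) := by
  unfold dom
  exact continuous_finsetSum _ fun i _ => continuous_finsetSum _ fun j _ =>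
    (((sp_vort hv i).pd j).cont).abs

lemma dom_nonneg (v : V → V) (x : V) : 0 ≤ dom v x :=
  Finset.sum_nonneg fun _ _ => Finset.sum_nonneg fun _ _ => abs_nonneg _

lemma point_le {B : ℝ} {x : V} (hB : ∀ i, |v x i| ≤ B) :
    |∑ i, ∑ j, v x j * (vort v x i * pd i (fun y => vort v y j) x)| ≤ B * (om v x * dom v x) := by
  have hB0 : 0 ≤ B := (abs_nonneg _).trans (hB 0)
  have h1 : ∀ i j, |v x j * (vort v x i * pd i (fun y => vort v y j) x)|
      ≤ B * (om v x * |pd i (fun y => vort v y j) x|) := by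
    intro i j
    rw [abs_mul, abs_mul]
    refine mul_le_mul (hB j) ?_ (by positivity) hB0
    exact mul_le_mul_of_nonneg_right (abs_le_len _ _) (abs_nonneg _)
  have h2 : B * (om v x * dom v x)
      = ∑ i, ∑ j, B * (om v x * |pd i (fun y => vort v y j) x|) := by
    unfold dom
    rw [Finset.sum_comm]
    simp_rw [Finset.mul_sum]
  rw [h2]
  refine (Finset.abs_sum_le_sum_abs _ _).trans (Finset.sum_le_sum fun i _ => ?_)
  exact (Finset.abs_sum_le_sum_abs _ _).trans (Finset.sum_le_sum fun j _ => h1 i j)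

include hv in
lemma int_pd_vort (i j : Fin 3) : ∫ x in cube, pd j (fun y => vort v y i) x ^ 2 ≤ 4 * palin v := by
  have hp : ∀ a b, ∫ x in cube, pd j (pd a (fun y => v y b)) x ^ 2 ≤ palin v := by
    intro a b
    have h1 := nrm_pd_pd_le (hv b) j a
    have h2 := pow_le_pow_left₀ (nrm_nonneg _) h1 2
    rw [nrm_sq, nrm_sq] at h2
    refine h2.trans ?_
    exact Finset.single_le_sum (f := fun i => ∫ x in cube, lap (fun y => v y i) x ^ 2)
      (fun _ _ => integral_nonneg fun _ => sq_nonneg _) (Finset.mem_univ b)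
  have h : ∀ a b c d, ∫ x in cube, pd j (fun y => gradM v y a b - gradM v y c d) x ^ 2
      ≤ 4 * palin v := by
    intro a b c d
    have e : ∀ x, pd j (fun y => gradM v y a b - gradM v y c d) x
        = pd j (pd a (fun y => v y b)) x - pd j (pd c (fun y => v y d)) x := fun x =>
      Pool.Agent.Q199.VD.pd_sub' (sp_grad hv a b) (sp_grad hv c d) j x
    have c1 := (((hv b).pd a).pd j).cont
    have c2 := (((hv d).pd c).pd j).cont
    calc ∫ x in cube, pd j (fun y => gradM v y a b - gradM v y c d) x ^ 2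
        ≤ ∫ x in cube, (2 * pd j (pd a (fun y => v y b)) x ^ 2
          + 2 * pd j (pd c (fun y => v y d)) x ^ 2) := by
          refine int_le ?_ ((continuous_const.mul (c1.pow 2)).add
            (continuous_const.mul (c2.pow 2))) fun x => ?_
          · simp_rw [e]
            exact (c1.sub c2).pow 2
          · rw [e]
            nlinarith [sq_nonneg (pd j (pd a (fun y => v y b)) x
              + pd j (pd c (fun y => v y d)) x)]
      _ = 2 * (∫ x in cube, pd j (pd a (fun y => v y b)) x ^ 2)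
          + 2 * ∫ x in cube, pd j (pd c (fun y => v y d)) x ^ 2 := by
          rw [int_add2 (f := fun x => 2 * pd j (pd a (fun y => v y b)) x ^ 2)
            (g := fun x => 2 * pd j (pd c (fun y => v y d)) x ^ 2)
            (continuous_const.mul (c1.pow 2)) (continuous_const.mul (c2.pow 2)),
            integral_const_mul, integral_const_mul]
      _ ≤ 4 * palin v := by linarith [hp a b, hp c d]
  fin_cases i
  · exact h 1 2 2 1
  · exact h 2 0 0 2
  · exact h 0 1 1 0

include hv in
lemma int_vort (i : Fin 3) : ∫ x in cube, vort v x i ^ 2 ≤ 4 * enstrophy v := by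
  have hp : ∀ a b, ∫ x in cube, pd a (fun y => v y b) x ^ 2 ≤ enstrophy v := by
    intro a b
    refine le_trans ?_ (Finset.single_le_sum (f := fun i => ∑ j, ∫ x in cube,
      pd j (fun y => v y i) x ^ 2) (fun _ _ => Finset.sum_nonneg fun _ _ =>
        integral_nonneg fun _ => sq_nonneg _) (Finset.mem_univ b))
    exact Finset.single_le_sum (f := fun j => ∫ x in cube, pd j (fun y => v y b) x ^ 2)
      (fun _ _ => integral_nonneg fun _ => sq_nonneg _) (Finset.mem_univ a)
  have h : ∀ a b c d, ∫ x in cube, (gradM v x a b - gradM v x c d) ^ 2 ≤ 4 * enstrophy v := by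
    intro a b c d
    have c1 := (sp_grad hv a b).cont
    have c2 := (sp_grad hv c d).cont
    calc ∫ x in cube, (gradM v x a b - gradM v x c d) ^ 2
        ≤ ∫ x in cube, (2 * gradM v x a b ^ 2 + 2 * gradM v x c d ^ 2) := by
          refine int_le ((c1.sub c2).pow 2) ((continuous_const.mul (c1.pow 2)).add
            (continuous_const.mul (c2.pow 2))) fun x => ?_
          nlinarith [sq_nonneg (gradM v x a b + gradM v x c d)]
      _ = 2 * (∫ x in cube, gradM v x a b ^ 2) + 2 * ∫ x in cube, gradM v x c d ^ 2 := by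
          rw [int_add2 (f := fun x => 2 * gradM v x a b ^ 2)
            (g := fun x => 2 * gradM v x c d ^ 2)
            (continuous_const.mul (c1.pow 2)) (continuous_const.mul (c2.pow 2)),
            integral_const_mul, integral_const_mul]
      _ ≤ 4 * enstrophy v := by
          have h1 : ∫ x in cube, gradM v x a b ^ 2 ≤ enstrophy v := hp a b
          have h2 : ∫ x in cube, gradM v x c d ^ 2 ≤ enstrophy v := hp c d
          linarith
  fin_cases i
  · exact h 1 2 2 1
  · exact h 2 0 0 2
  · exact h 0 1 1 0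

include hv in
lemma int_om_sq : ∫ x in cube, om v x ^ 2 ≤ 12 * enstrophy v := by
  have e : ∀ x, om v x ^ 2 = ∑ i, vort v x i ^ 2 := by
    intro x
    rw [om_sq, dotProduct]
    exact Finset.sum_congr rfl fun i _ => (sq _).symm
  simp_rw [e]
  rw [integral_finsetSum _ fun i _ => ?_, Fin.sum_univ_three]
  · linarith [int_vort hv 0, int_vort hv 1, int_vort hv 2]
  · exact ((sp_vort hv i).cont.pow 2).continuousOn.integrableOn_compact isCompact_Icc

include hv in
lemma int_dom_sq : ∫ x in cube, dom v x ^ 2 ≤ 324 * palin v := by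
  have hc : ∀ i j : Fin 3, Continuous fun x => 9 * pd j (fun y => vort v y i) x ^ 2 := fun i j =>
    continuous_const.mul (((sp_vort hv i).pd j).cont.pow 2)
  have h1 : ∀ x, dom v x ^ 2 ≤ ∑ i, ∑ j, 9 * pd j (fun y => vort v y i) x ^ 2 := by
    intro x
    unfold dom
    have e : ∀ a : Fin 3 → ℝ, (∑ i, a i) ^ 2 ≤ 3 * ∑ i, a i ^ 2 := by
      intro a
      have := sq_sum_le_card_mul_sum_sq (s := (Finset.univ : Finset (Fin 3))) (f := a)
      simpa using this
    calc (∑ i, ∑ j, |pd j (fun y => vort v y i) x|) ^ 2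
        ≤ 3 * ∑ i, (∑ j, |pd j (fun y => vort v y i) x|) ^ 2 := e _
      _ ≤ 3 * ∑ i, 3 * ∑ j, |pd j (fun y => vort v y i) x| ^ 2 := by
          refine mul_le_mul_of_nonneg_left (Finset.sum_le_sum fun i _ => e _) (by norm_num)
      _ = ∑ i, ∑ j, 9 * pd j (fun y => vort v y i) x ^ 2 := by
          simp_rw [sq_abs, Finset.mul_sum]
          refine Finset.sum_congr rfl fun i _ => Finset.sum_congr rfl fun j _ => by ring
  refine (int_le ((dom_cont hv).pow 2) (continuous_finsetSum _ fun i _ =>
    continuous_finsetSum _ fun j _ => hc i j) h1).trans ?_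
  rw [int_fin (f := fun i x => ∑ j, 9 * pd j (fun y => vort v y i) x ^ 2)
    fun i => continuous_finsetSum _ fun j _ => hc i j]
  have h2 : ∀ i, ∫ x in cube, ∑ j, 9 * pd j (fun y => vort v y i) x ^ 2 ≤ 108 * palin v := by
    intro i
    rw [int_fin (hc i)]
    simp_rw [integral_const_mul]
    rw [Fin.sum_univ_three]
    linarith [int_pd_vort hv i 0, int_pd_vort hv i 1, int_pd_vort hv i 2]
  rw [Fin.sum_univ_three]
  linarith [h2 0, h2 1, h2 2]

lemma cube_sum (a b c : ℝ) (ha : 0 ≤ a) (hb : 0 ≤ b) (hc : 0 ≤ c) :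
    (a + b + c) ^ 3 ≤ 9 * (a ^ 3 + b ^ 3 + c ^ 3) := by
  nlinarith [mul_nonneg (add_nonneg ha hb) (sq_nonneg (a - b)),
    mul_nonneg (add_nonneg hb hc) (sq_nonneg (b - c)),
    mul_nonneg (add_nonneg hc ha) (sq_nonneg (c - a)),
    mul_nonneg ha (sq_nonneg (b - c)), mul_nonneg hb (sq_nonneg (c - a)),
    mul_nonneg hc (sq_nonneg (a - b)), mul_nonneg ha (sq_nonneg (a - b)),
    mul_nonneg ha (sq_nonneg (a - c)), mul_nonneg hb (sq_nonneg (b - a)),
    mul_nonneg hb (sq_nonneg (b - c)), mul_nonneg hc (sq_nonneg (c - a)),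
    mul_nonneg hc (sq_nonneg (c - b))]

/-- The cube of the vorticity. -/
theorem int_om_cube : ∃ C : ℝ, 0 < C ∧ ∀ (v : V → V) (K ρ : ℝ), (∀ i, SP (fun y => v y i)) →
    0 ≤ K → 0 < ρ → ρ ≤ 1 → Mor K ρ (om v) →
      ∫ x in cube, om v x ^ 3 ≤ C * K * (palin v + enstrophy v / ρ ^ 2) := by
  obtain ⟨C, hC, h⟩ := Pool.Agent.Q225.VD.gn
  refine ⟨9 * 36 * C, by positivity, fun v K ρ hv hK hρ hρ1 hM => ?_⟩
  have hw := sp_vort hv
  have h1 : ∀ i, ∫ x in cube, |vort v x i| ^ 3
      ≤ 12 * (C * K * (palin v + enstrophy v / ρ ^ 2)) := by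
    intro i
    have hm : Mor K ρ (fun x => vort v x i) := mor_of_le (om_cont hv) (hw i).cont (fun x => by
      rw [abs_of_nonneg (om_nonneg v x)]
      exact abs_le_len _ _) hM
    refine (h K ρ _ hK hρ hρ1 (hw i) hm).trans ?_
    have h2 : (∑ j, ∫ x in cube, pd j (fun x => vort v x i) x ^ 2) ≤ 12 * palin v := by
      rw [Fin.sum_univ_three]
      linarith [int_pd_vort hv i 0, int_pd_vort hv i 1, int_pd_vort hv i 2]
    have h3 : (∫ x in cube, vort v x i ^ 2) / ρ ^ 2 ≤ 4 * enstrophy v / ρ ^ 2 :=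
      div_le_div_of_nonneg_right (int_vort hv i) (by positivity)
    have h4 : 0 ≤ enstrophy v / ρ ^ 2 := div_nonneg (enstrophy_nonneg _) (by positivity)
    calc C * K * ((∑ j, ∫ x in cube, pd j (fun x => vort v x i) x ^ 2)
          + (∫ x in cube, vort v x i ^ 2) / ρ ^ 2)
        ≤ C * K * (12 * palin v + 4 * enstrophy v / ρ ^ 2) := by gcongr
      _ ≤ C * K * (12 * palin v + 12 * (enstrophy v / ρ ^ 2)) := by
          refine mul_le_mul_of_nonneg_left ?_ (by positivity)
          have : 4 * enstrophy v / ρ ^ 2 = 4 * (enstrophy v / ρ ^ 2) := by ring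
          linarith
      _ = _ := by ring
  have h5 : ∀ x, om v x ^ 3 ≤ 9 * |vort v x 0| ^ 3 + 9 * |vort v x 1| ^ 3
      + 9 * |vort v x 2| ^ 3 := by
    intro x
    have h6 : om v x ≤ |vort v x 0| + |vort v x 1| + |vort v x 2| := by
      refine Real.sqrt_le_iff.2 ⟨by positivity, ?_⟩
      rw [dotProduct, Fin.sum_univ_three]
      have a0 := sq_abs (vort v x 0)
      have a1 := sq_abs (vort v x 1)
      have a2 := sq_abs (vort v x 2)
      have b0 := abs_nonneg (vort v x 0)
      have b1 := abs_nonneg (vort v x 1)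
      have b2 := abs_nonneg (vort v x 2)
      nlinarith [mul_nonneg b0 b1, mul_nonneg b1 b2, mul_nonneg b0 b2]
    calc om v x ^ 3 ≤ (|vort v x 0| + |vort v x 1| + |vort v x 2|) ^ 3 :=
          pow_le_pow_left₀ (om_nonneg v x) h6 3
      _ ≤ 9 * (|vort v x 0| ^ 3 + |vort v x 1| ^ 3 + |vort v x 2| ^ 3) :=
          cube_sum _ _ _ (abs_nonneg _) (abs_nonneg _) (abs_nonneg _)
      _ = _ := by ring
  have hc : ∀ i, Continuous fun x => 9 * |vort v x i| ^ 3 := fun i =>
    continuous_const.mul ((hw i).cont.abs.pow 3)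
  refine (int_le (g := fun x => 9 * |vort v x 0| ^ 3 + 9 * |vort v x 1| ^ 3
    + 9 * |vort v x 2| ^ 3) ((om_cont hv).pow 3) (((hc 0).add (hc 1)).add (hc 2)) h5).trans ?_
  rw [int_add2 (f := fun x => 9 * |vort v x 0| ^ 3 + 9 * |vort v x 1| ^ 3)
    ((hc 0).add (hc 1)) (hc 2), int_add2 (hc 0) (hc 1), integral_const_mul,
    integral_const_mul, integral_const_mul]
  linarith [h1 0, h1 1, h1 2]

/-- The production of enstrophy under a Morrey bound. -/
theorem production : ∃ C : ℝ, 0 < C ∧ ∀ (v : V → V) (K ρ : ℝ), (∀ i, SP (fun y => v y i)) →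
    (∀ x, ∑ i, pd i (fun y => v y i) x = 0) → 0 < K → K ≤ 1 → 0 < ρ → ρ ≤ 1 / 2 →
    Mor K ρ (om v) → ∫ x in cube, stretchRate v x
      ≤ C * K * palin v + C / K * (1 / ρ ^ 2 + energy v / ρ ^ 3) * enstrophy v := by
  obtain ⟨C1, hC1, h1⟩ := vel
  obtain ⟨C2, hC2, h2⟩ := Pool.Agent.Q225.VD.tri
  obtain ⟨C3, hC3, h3⟩ := int_om_cube
  refine ⟨C1 * (C2 * C3 + 324), by positivity, fun v K ρ hv hdiv hK hK1 hρ hρ1 hM => ?_⟩
  set e := √(energy v / ρ ^ 3) with he
  have hE0 : 0 ≤ energy v / ρ ^ 3 := div_nonneg (H459R3.NS.energy_nonneg _) (by positivity)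
  have he2 : e ^ 2 = energy v / ρ ^ 3 := Real.sq_sqrt hE0
  set P : V → ℝ := pot ρ (om v) with hP
  have hPc : Continuous P := pot_cont (om_per hv) (om_cont hv) ρ
  have hoc := om_cont hv
  have hdc := dom_cont hv
  have hP0 : ∀ x, 0 ≤ P x := fun x => pot_nonneg _ _ _
  -- the pointwise bound
  have hpt : ∀ x, -(∑ i, ∑ j, v x j * (vort v x i * pd i (fun y => vort v y j) x))
      ≤ C1 * (1 / (2 * K) * (om v x ^ 2 * P x ^ 2) + 1 / (2 * K) * (e ^ 2 * om v x ^ 2)
        + K * dom v x ^ 2) := by
    intro x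
    have a1 := point_le (v := v) (x := x) (fun i => h1 v ρ hv hdiv hρ hρ1 x i)
    have a2 := (abs_le.1 a1).1
    refine (by linarith : _ ≤ C1 * (P x + e) * (om v x * dom v x)).trans ?_
    rw [mul_assoc]
    refine mul_le_mul_of_nonneg_left ?_ hC1.le
    have b1 : P x * om v x * dom v x ≤ 1 / (2 * K) * (om v x ^ 2 * P x ^ 2)
        + K / 2 * dom v x ^ 2 := by
      have : 0 ≤ 1 / (2 * K) * (P x * om v x - K * dom v x) ^ 2 := by positivity
      have e1 : 1 / (2 * K) * (P x * om v x - K * dom v x) ^ 2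
          = 1 / (2 * K) * (om v x ^ 2 * P x ^ 2) - P x * om v x * dom v x
            + K / 2 * dom v x ^ 2 := by
        field_simp
        ring
      linarith
    have b2 : e * om v x * dom v x ≤ 1 / (2 * K) * (e ^ 2 * om v x ^ 2)
        + K / 2 * dom v x ^ 2 := by
      have : 0 ≤ 1 / (2 * K) * (e * om v x - K * dom v x) ^ 2 := by positivity
      have e1 : 1 / (2 * K) * (e * om v x - K * dom v x) ^ 2
          = 1 / (2 * K) * (e ^ 2 * om v x ^ 2) - e * om v x * dom v x
            + K / 2 * dom v x ^ 2 := by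
        field_simp
        ring
      linarith
    nlinarith
  have hcL : Continuous fun x => -(∑ i, ∑ j, v x j * (vort v x i * pd i (fun y => vort v y j) x)) :=
    (SP.sum fun i _ => SP.sum fun j _ =>
      (hv j).mul ((sp_vort hv i).mul ((sp_vort hv j).pd i))).cont.neg
  have c1 : Continuous fun x => 1 / (2 * K) * (om v x ^ 2 * P x ^ 2) :=
    continuous_const.mul ((hoc.pow 2).mul (hPc.pow 2))
  have c2 : Continuous fun x => 1 / (2 * K) * (e ^ 2 * om v x ^ 2) :=
    continuous_const.mul (continuous_const.mul (hoc.pow 2))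
  have c3 : Continuous fun x => K * dom v x ^ 2 := continuous_const.mul (hdc.pow 2)
  rw [stretch_ibp hv, ← integral_neg]
  refine (int_le (g := fun x => C1 * (1 / (2 * K) * (om v x ^ 2 * P x ^ 2)
    + 1 / (2 * K) * (e ^ 2 * om v x ^ 2) + K * dom v x ^ 2)) hcL
    (continuous_const.mul ((c1.add c2).add c3)) hpt).trans ?_
  rw [integral_const_mul, int_add2 (f := fun x => 1 / (2 * K) * (om v x ^ 2 * P x ^ 2)
    + 1 / (2 * K) * (e ^ 2 * om v x ^ 2)) (c1.add c2) c3, int_add2 c1 c2,
    integral_const_mul, integral_const_mul, integral_const_mul, integral_const_mul]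
  have t1 := h2 K ρ (om v) hK.le hρ (by linarith) hoc (om_per hv) (om_nonneg v) hM
  have t2 := h3 v K ρ hv hK.le hρ (by linarith) hM
  have t3 := int_om_sq hv
  have t4 := int_dom_sq hv
  have hp0 := palin_nonneg v
  have hs0 := enstrophy_nonneg v
  have hsρ : 0 ≤ enstrophy v / ρ ^ 2 := by positivity
  -- the terms
  have s1 : 1 / (2 * K) * ∫ x in cube, om v x ^ 2 * P x ^ 2
      ≤ C2 * C3 * K * palin v + C2 * C3 / K * (1 / ρ ^ 2) * enstrophy v := by
    have u1 : ∫ x in cube, om v x ^ 2 * P x ^ 2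
        ≤ C2 * K * (C3 * K * (palin v + enstrophy v / ρ ^ 2)) :=
      t1.trans (mul_le_mul_of_nonneg_left t2 (by positivity))
    calc 1 / (2 * K) * ∫ x in cube, om v x ^ 2 * P x ^ 2
        ≤ 1 / (2 * K) * (C2 * K * (C3 * K * (palin v + enstrophy v / ρ ^ 2))) :=
          mul_le_mul_of_nonneg_left u1 (by positivity)
      _ = C2 * C3 * K / 2 * palin v + C2 * C3 * (K / 2) * (enstrophy v / ρ ^ 2) := by
          field_simp
      _ ≤ C2 * C3 * K * palin v + C2 * C3 * (1 / K) * (enstrophy v / ρ ^ 2) := by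
          have k1 : K / 2 ≤ 1 / K := by
            rw [div_le_div_iff₀ two_pos hK]
            nlinarith
          have k2 : C2 * C3 * K / 2 ≤ C2 * C3 * K := by
            have : 0 ≤ C2 * C3 * K := by positivity
            linarith
          have k3 : C2 * C3 * (K / 2) ≤ C2 * C3 * (1 / K) :=
            mul_le_mul_of_nonneg_left k1 (by positivity)
          exact add_le_add (mul_le_mul_of_nonneg_right k2 hp0)
            (mul_le_mul_of_nonneg_right k3 hsρ)
      _ = _ := by ring
  have s2 : 1 / (2 * K) * (e ^ 2 * ∫ x in cube, om v x ^ 2)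
      ≤ 324 / K * (energy v / ρ ^ 3) * enstrophy v := by
    rw [he2]
    calc 1 / (2 * K) * (energy v / ρ ^ 3 * ∫ x in cube, om v x ^ 2)
        ≤ 1 / (2 * K) * (energy v / ρ ^ 3 * (12 * enstrophy v)) := by gcongr
      _ = 6 / K * (energy v / ρ ^ 3) * enstrophy v := by field_simp; ring
      _ ≤ _ := by
          have : (6 : ℝ) / K ≤ 324 / K := div_le_div_of_nonneg_right (by norm_num) hK.le
          exact mul_le_mul_of_nonneg_right (mul_le_mul_of_nonneg_right this hE0) hs0
  have s3 : K * ∫ x in cube, dom v x ^ 2 ≤ 324 * K * palin v := by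
    calc K * ∫ x in cube, dom v x ^ 2 ≤ K * (324 * palin v) := by gcongr
      _ = _ := by ring
  have s4 : 0 ≤ 324 / K * (1 / ρ ^ 2) * enstrophy v := by positivity
  have s5 : 0 ≤ C2 * C3 / K * (energy v / ρ ^ 3) * enstrophy v := by positivity
  calc C1 * (1 / (2 * K) * (∫ x in cube, om v x ^ 2 * P x ^ 2)
        + 1 / (2 * K) * (e ^ 2 * ∫ x in cube, om v x ^ 2) + K * ∫ x in cube, dom v x ^ 2)
      ≤ C1 * ((C2 * C3 + 324) * K * palin v
        + (C2 * C3 + 324) / K * (1 / ρ ^ 2 + energy v / ρ ^ 3) * enstrophy v) := by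
        refine mul_le_mul_of_nonneg_left ?_ hC1.le
        have e1 : (C2 * C3 + 324) * K * palin v
            + (C2 * C3 + 324) / K * (1 / ρ ^ 2 + energy v / ρ ^ 3) * enstrophy v
            = (C2 * C3 * K * palin v + C2 * C3 / K * (1 / ρ ^ 2) * enstrophy v)
              + 324 / K * (energy v / ρ ^ 3) * enstrophy v + 324 * K * palin v
              + 324 / K * (1 / ρ ^ 2) * enstrophy v
              + C2 * C3 / K * (energy v / ρ ^ 3) * enstrophy v := by ring
        rw [e1]
        linarith
    _ = _ := by ring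

end Pool.Agent.Q84.CC
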